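import Pool.Agent.H46.SW.Lo
import Pool.Agent.H46.SW.Uni

/-!
# The law of the iterated logarithm for the Frobenius angles at `s` consecutive primes, all boxes at once

Let `a, b` be polynomials in `d` variables over `ℤ`, and `E_ν : y² = x³ + a(ν) x + b(ν)`, `ν ∈ ℤ^d`.
`A(R; K)` (`boxCount`) is the number of the `k < K` for which the Frobenius angles of `E_ν` at the `s` primes with the
numbers `k, …, k + s - 1` lie in `R`, a product of `s` intervals, `M(R; K)` (`boxMean`) and `boxVariance` are its mean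
and its variance over the residues `ν` modulo the product of the first `K + s` primes, and `V(K)` (`maxVariance`) is the
supremum of the variances for all `R` and all `K' ≤ K`.

For every family with `V(K') ≥ c K'` almost every member has, with the exact constant `√2`,

* `|A(R; K') - M(R; K')| ≤ (1 + δ) √(2 V(K') log log K')` for ALL products `R` of intervals and ALL `K₀ ≤ K' ≤ K`;
* `A(R; K') - M(R; K') ≥ (1 - δ) √(2 V(K') log log K')` for SOME `R` and some `K'` with `K ^ (1 - δ) ≤ K' ≤ K`;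
* `A(R; K') - M(R; K') ≤ -(1 - δ) √(2 V(K') log log K')` for some `R` and some `K'` with `K ^ (1 - δ) ≤ K' ≤ K`.

The sides of the box of the parameters are at least `(d + 1) p ^ (A log log K)`, `p` the prime with the number `K + s`.
The family of all curves `y² = x³ + a x + b` has `V(K) ≥ K / 30` for all `K ≥ 4`.
-/

set_option autoImplicit false

namespace Pool.Agent.Results.MP_29be01_nt.IteratedLogarithm

open Finset Pool.Agent.Q255.EB
open Q282LT (zprop zbox)
open Pool.Agent.H46.SW (Vm Vset vb upper lower uni I0 I0_ord Vm_ge)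

/-- `V(K)`: the supremum of the variances of `A(R; K')` for all products `R` of `s` intervals and all `K' ≤ K`. -/
noncomputable def maxVariance {d : ℕ} (s : ℕ) (a b : MvPolynomial (Fin d) ℤ) (K : ℕ) : ℝ :=
  sSup {v : ℝ | ∃ K' : ℕ, K' ≤ K ∧ ∃ R : Fin s → Set ℝ, (∀ i, (R i).OrdConnected) ∧ v = boxVariance a b R K'}

lemma maxVariance_eq {d : ℕ} (s : ℕ) (a b : MvPolynomial (Fin d) ℤ) (K : ℕ) :
    maxVariance s a b K = Vm d s pk (ang a b) K := by
  unfold maxVariance Vm Vset
  congr 1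
  ext v
  simp only [Set.mem_ofPred_eq, boxVariance_eq]
  rfl

lemma compl_prop {d : ℕ} (m : Fin d → ℤ) (L : Fin d → ℕ) (hL : ∀ i, 0 < L i) (P : (Fin d → ℤ) → Prop) (ε : ℝ)
    (h : zprop m L (fun ν => ¬ P ν) ≤ ε) : 1 - ε ≤ proportion m L P := by
  classical
  have hpos : 0 < ∏ i, (L i : ℝ) := prod_pos fun i _ => by exact_mod_cast hL i
  unfold zprop at h
  rw [div_le_iff₀ hpos] at h
  refine le_proportion hL (T := (zbox m L).filter fun ν => ¬ P ν) (le_trans (le_of_eq ?_) h) ?_
  · norm_cast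
    congr 1
    ext ν
    simp only [mem_filter]
  · intro ν hν hνT
    by_contra hP
    exact hνT (mem_filter.2 ⟨hν, hP⟩)

/-- **The law of the iterated logarithm for the windows of `s` consecutive Frobenius angles**, for almost all members of
every family of elliptic curves, all boxes at once; and the lower bound for the variance in the family of all curves. -/
theorem result :
    (∀ (s : ℕ) (c ε δ : ℝ) (K₁ : ℕ), 0 < c → 0 < ε → 0 < δ → δ < 1 → ∃ (A : ℝ) (K₀ : ℕ), 0 < A ∧ 3 ≤ K₀ ∧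
      ∀ (d : ℕ) (a b : MvPolynomial (Fin d) ℤ) (K : ℕ), K₀ ≤ K →
        (∀ K' : ℕ, K₁ ≤ K' → K' ≤ K → c * K' ≤ maxVariance s a b K') →
        ∀ (u : Fin d → ℤ) (L : Fin d → ℕ),
          (∀ i, (d + 1) * (pk (K + s) : ℝ) ^ (A * Real.log (Real.log K)) ≤ L i) →
          1 - ε ≤ proportion u L (fun ν =>
            (∀ K' : ℕ, K₀ ≤ K' → K' ≤ K → ∀ R : Fin s → Set ℝ, (∀ i, (R i).OrdConnected) →
              |boxCount R K' (MvPolynomial.eval ν a) (MvPolynomial.eval ν b) - boxMean a b R K'| ≤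
                (1 + δ) * √(2 * maxVariance s a b K' * Real.log (Real.log K'))) ∧
            (∃ K' : ℕ, (K : ℝ) ^ (1 - δ) ≤ K' ∧ K' ≤ K ∧ ∃ R : Fin s → Set ℝ, (∀ i, (R i).OrdConnected) ∧
              (1 - δ) * √(2 * maxVariance s a b K' * Real.log (Real.log K')) ≤
                boxCount R K' (MvPolynomial.eval ν a) (MvPolynomial.eval ν b) - boxMean a b R K') ∧
            (∃ K' : ℕ, (K : ℝ) ^ (1 - δ) ≤ K' ∧ K' ≤ K ∧ ∃ R : Fin s → Set ℝ, (∀ i, (R i).OrdConnected) ∧
              boxCount R K' (MvPolynomial.eval ν a) (MvPolynomial.eval ν b) - boxMean a b R K' ≤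
                -((1 - δ) * √(2 * maxVariance s a b K' * Real.log (Real.log K')))))) ∧
    (∀ s : ℕ, 0 < s → ∀ K : ℕ, 4 ≤ K →
      (1 / 30 : ℝ) * K ≤ maxVariance s (MvPolynomial.X 0 : MvPolynomial (Fin 2) ℤ) (MvPolynomial.X 1) K) := by
  constructor
  · intro s c ε δ K₁ hc hε hδ hδ1
    obtain ⟨A₁, K₂, hA₁, hK₂3, H₁⟩ := upper s c (ε / 3) δ K₁ hc (by positivity) hδ hδ1.le
    obtain ⟨A₂, K₃, hA₂, hK₃3, H₂⟩ := lower s c (ε / 3) δ K₁ hc (by positivity) hδ hδ1.le
    refine ⟨max A₁ A₂, max K₂ K₃, lt_of_lt_of_le hA₁ (le_max_left _ _), hK₂3.trans (le_max_left _ _), ?_⟩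
    intro d a b K hK hV u L hL
    have hKK₂ : K₂ ≤ K := (le_max_left _ _).trans hK
    have hKK₃ : K₃ ≤ K := (le_max_right _ _).trans hK
    have hV' : ∀ K' ≤ K, K₁ ≤ K' → c * K' ≤ Vm d s pk (ang a b) K' := by
      intro K' h1 h2
      rw [← maxVariance_eq]
      exact hV K' h2 h1
    have hle : ∀ i < K + s, pk i ≤ pk (K + s) := fun i hi => pk_strictMono.monotone (by omega)
    have hKle : K ≤ pk (K + s) := by
      have := pk_strictMono.le_apply (x := K + s)
      omega
    have hp1 : (1 : ℝ) ≤ pk (K + s) := by exact_mod_cast (pk_prime _).one_lt.le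
    have hK3 : (3 : ℝ) ≤ K := by exact_mod_cast hK₂3.trans hKK₂
    have hll : 0 ≤ Real.log (Real.log K) := by
      apply Real.log_nonneg
      rw [Real.le_log_iff_exp_le (by linarith)]
      have := Real.exp_one_lt_d9
      linarith
    have hLA : ∀ B : ℝ, B ≤ max A₁ A₂ → ∀ i, (d + 1) * (pk (K + s) : ℝ) ^ (B * Real.log (Real.log K)) ≤ L i := by
      intro B hB i
      refine le_trans (mul_le_mul_of_nonneg_left (Real.rpow_le_rpow_of_exponent_le hp1 ?_) (by positivity)) (hL i)
      exact mul_le_mul_of_nonneg_right hB hll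
    have hLpos : ∀ i, 0 < L i := by
      intro i
      have h1 := hL i
      have h2 : (0 : ℝ) < (d + 1) * (pk (K + s) : ℝ) ^ (max A₁ A₂ * Real.log (Real.log K)) := by positivity
      exact_mod_cast h2.trans_le h1
    have h1 := H₁ d K pk (ang a b) (fam a b (K + s)) hV' (pk (K + s)) hle hKle u L (hLA A₁ (le_max_left _ _))
    have h2 := H₂ d K pk (ang a b) (fam a b (K + s)) hKK₃ hV' (pk (K + s)) hle hKle u L (hLA A₂ (le_max_right _ _)) 1 (Or.inl rfl)
    have h3 := H₂ d K pk (ang a b) (fam a b (K + s)) hKK₃ hV' (pk (K + s)) hle hKle u L (hLA A₂ (le_max_right _ _)) (-1) (Or.inr rfl)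
    simp only [maxVariance_eq, boxMean_eq, ← count_eq]
    apply compl_prop u L hLpos
    refine (Pool.Agent.H46.SW.zprop_union u L (univ : Finset (Fin 3)) _ ![
      (fun ν => ∃ K' ≤ K, K₂ ≤ K' ∧ ∃ I : Fin s → Set ℝ, (∀ i, (I i).OrdConnected) ∧
          (1 + δ) * √(2 * Vm d s pk (ang a b) K' * Real.log (Real.log K')) ≤ |count (ang a b) I K' ν - cmean pk (ang a b) I K'|),
      (fun ν => ¬ ∃ K' ≤ K, (K : ℝ) ^ (1 - δ) ≤ K' ∧ ∃ I : Fin s → Set ℝ, (∀ i, (I i).OrdConnected) ∧
          (1 - δ) * √(2 * Vm d s pk (ang a b) K' * Real.log (Real.log K')) ≤ 1 * (count (ang a b) I K' ν - cmean pk (ang a b) I K')),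
      (fun ν => ¬ ∃ K' ≤ K, (K : ℝ) ^ (1 - δ) ≤ K' ∧ ∃ I : Fin s → Set ℝ, (∀ i, (I i).OrdConnected) ∧
          (1 - δ) * √(2 * Vm d s pk (ang a b) K' * Real.log (Real.log K')) ≤ (-1) * (count (ang a b) I K' ν - cmean pk (ang a b) I K'))] ?_).trans ?_
    · intro ν hν
      by_contra hcon
      apply hν
      refine ⟨?_, ?_, ?_⟩
      · intro K' hK' hK'K R hR
        by_contra h4
        push Not at h4
        exact hcon ⟨0, mem_univ _, ⟨K', hK'K, (le_max_left _ _).trans hK', R, hR, h4.le⟩⟩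
      · by_contra h4
        exact hcon ⟨1, mem_univ _, fun ⟨K', h5, h6, R, hR, h7⟩ => h4 ⟨K', h6, h5, R, hR, by linarith⟩⟩
      · by_contra h4
        exact hcon ⟨2, mem_univ _, fun ⟨K', h5, h6, R, hR, h7⟩ => h4 ⟨K', h6, h5, R, hR, by linarith⟩⟩
    · rw [Fin.sum_univ_three]
      simp only [Matrix.cons_val_zero, Matrix.cons_val_one, Matrix.cons_val_two, Matrix.head_cons, Matrix.tail_cons]
      linarith
  · intro s hs K hK
    rw [maxVariance_eq]
    refine (uni s hs K hK).trans ?_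
    rw [boxVariance_eq]
    exact Vm_ge (fam (MvPolynomial.X 0 : MvPolynomial (Fin 2) ℤ) (MvPolynomial.X 1) (K + s)) le_rfl le_rfl (I0 s) (I0_ord s)

end Pool.Agent.Results.MP_29be01_nt.IteratedLogarithm
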