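import Pool.Agent.H46.SI.Fin

/-!
# Short windows of primes: the law of the maximal increments for the Frobenius angles at `s` consecutive primes

Let `a, b` be polynomials in `d` variables over `ℤ`, and `E_ν : y² = x³ + a(ν) x + b(ν)`, `ν ∈ ℤ^d`.
`A(R; N, M)` (`windowCount`) is the number of the `k` with `N ≤ k < N + M` for which the Frobenius angles of `E_ν` at the
`s` primes with the numbers `k, …, k + s - 1` lie in `R`, a product of `s` intervals, `M(R; N, M)` (`windowMean`) and
`windowVariance` are its mean and its variance over the residues `ν` modulo the product of the primes with the numbers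
`N, …, N + M + s - 1`, and `V(N, M)` (`maxVariance`) is the supremum of the variances of `A(R; N, M')` for all `R` and all
`M' ≤ M`.

For every `c, δ > 0` there are `A, κ > 0` such that, for every family with `V(N, M) ≥ c M` (`N + M ≤ K`), all but a proportion
`K ^ (-κ)` of the members have, for ALL lengths `M` with `A log K ≤ M ≤ K ^ κ`, with the exact constant `√2`,

* `|A(R; N, M') - M(R; N, M')| ≤ (1 + δ) √(2 V(N, M) log K)` for ALL products `R` of intervals, ALL `M' ≤ M` and ALL `N ≤ K - M`;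
* `A(R; N, M') - M(R; N, M') ≥ (1 - δ) √(2 V(N, M) log K)` for SOME `R`, `M' ≤ M` and `N ≤ K - M`;
* `A(R; N, M') - M(R; N, M') ≤ -(1 - δ) √(2 V(N, M) log K)` for some `R`, `M' ≤ M` and `N ≤ K - M`.

The sides of the box of the parameters are at least `(d + 1) p ^ (A log K)`, `p` the prime with the number `K + s`.
The family of all curves `y² = x³ + a x + b` has `V(N, M) ≥ M / 30` for all `N` and all `M ≥ 4`.
-/

set_option autoImplicit false

namespace Pool.Agent.Results.MP_29be01_nt.ShortWindows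

open Finset Pool.Agent.Q255.EB
open Q282LT (zprop zbox avg)
open Pool.Agent.H46.SW (Vm Vset vb vb_I0 I0 I0_ord Vm_ge prob_pos)
open Pool.Agent.H46.SI (sh fam_sh Good main)

open Classical in
/-- `A(R; N, M)`: the number of the `k` with `N ≤ k < N + M` for which the Frobenius angles of the curve
`y² = x³ + A x + B` at the `s` primes with the numbers `k, …, k + s - 1` lie in `R 0, …, R (s - 1)`. -/
noncomputable def windowCount {s : ℕ} (R : Fin s → Set ℝ) (N M : ℕ) (A B : ℤ) : ℝ :=
  ((Ico N (N + M)).filter fun k => ∀ i : Fin s, angle A B (pk (k + i)) ∈ R i).card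

/-- `M(R; N, M)`: the mean of `A(R; N, M)` over all residues `ν` modulo the product of the primes with the numbers
`N, …, N + M + s - 1`, for the family `y² = x³ + a(ν) x + b(ν)`. -/
noncomputable def windowMean {d s : ℕ} (a b : MvPolynomial (Fin d) ℤ) (R : Fin s → Set ℝ) (N M : ℕ) : ℝ :=
  average d (∏ i ∈ Ico N (N + M + s), pk i) fun ν => windowCount R N M (MvPolynomial.eval ν a) (MvPolynomial.eval ν b)

/-- The variance of `A(R; N, M)` over the same residues. -/
noncomputable def windowVariance {d s : ℕ} (a b : MvPolynomial (Fin d) ℤ) (R : Fin s → Set ℝ) (N M : ℕ) : ℝ :=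
  average d (∏ i ∈ Ico N (N + M + s), pk i) fun ν =>
    (windowCount R N M (MvPolynomial.eval ν a) (MvPolynomial.eval ν b) - windowMean a b R N M) ^ 2

/-- `V(N, M)`: the supremum of the variances of `A(R; N, M')` for all products `R` of `s` intervals and all `M' ≤ M`. -/
noncomputable def maxVariance {d : ℕ} (s : ℕ) (a b : MvPolynomial (Fin d) ℤ) (N M : ℕ) : ℝ :=
  sSup {v : ℝ | ∃ M' : ℕ, M' ≤ M ∧ ∃ R : Fin s → Set ℝ, (∀ i, (R i).OrdConnected) ∧ v = windowVariance a b R N M'}

lemma windowCount_eq {d s : ℕ} (a b : MvPolynomial (Fin d) ℤ) (R : Fin s → Set ℝ) (N M : ℕ) (ν : Fin d → ℤ) :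
    windowCount R N M (MvPolynomial.eval ν a) (MvPolynomial.eval ν b) = count (sh N (ang a b)) R M ν := by
  classical
  unfold windowCount count
  congr 1
  symm
  refine card_nbij' (fun k => N + k) (fun k => k - N) ?_ ?_ ?_ ?_
  · intro k hk
    simp only [coe_filter, Set.mem_ofPred_eq, mem_range, mem_Ico] at hk ⊢
    refine ⟨⟨by omega, by omega⟩, fun i => ?_⟩
    have h := hk.2 i
    unfold sh ang at h
    rwa [← add_assoc] at h
  · intro k hk
    simp only [coe_filter, Set.mem_ofPred_eq, mem_range, mem_Ico] at hk ⊢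
    refine ⟨by omega, fun i => ?_⟩
    have h := hk.2 i
    unfold sh ang
    rwa [← add_assoc, Nat.add_sub_cancel' hk.1.1]
  · intro k _
    simp
  · intro k hk
    simp only [coe_filter, Set.mem_ofPred_eq, mem_Ico] at hk
    show N + (k - N) = k
    omega

lemma prod_eq (s N M : ℕ) : ∏ i ∈ Ico N (N + M + s), pk i = Q285MD.tm (sh N pk) (M + s) := by
  unfold Q285MD.tm sh
  rw [prod_Ico_eq_prod_range]
  congr 2
  omega

lemma fam_win {d : ℕ} (a b : MvPolynomial (Fin d) ℤ) (s N M : ℕ) : Fam d (M + s) (sh N pk) (sh N (ang a b)) :=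
  fam_sh (K := N + M) (fam a b (N + M + s)) le_rfl

lemma windowMean_eq {d s : ℕ} (a b : MvPolynomial (Fin d) ℤ) (R : Fin s → Set ℝ) (N M : ℕ) :
    windowMean a b R N M = cmean (sh N pk) (sh N (ang a b)) R M := by
  unfold windowMean
  simp only [windowCount_eq]
  rw [prod_eq]
  exact mean_eq (fam_win a b s N M) le_rfl R

lemma windowVariance_eq {d s : ℕ} (a b : MvPolynomial (Fin d) ℤ) (R : Fin s → Set ℝ) (N M : ℕ) :
    windowVariance a b R N M = vb (sh N pk) (sh N (ang a b)) R M := by
  unfold windowVariance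
  simp only [windowCount_eq, windowMean_eq]
  rw [prod_eq]
  rfl

lemma maxVariance_eq {d : ℕ} (s : ℕ) (a b : MvPolynomial (Fin d) ℤ) (N M : ℕ) :
    maxVariance s a b N M = Vm d s (sh N pk) (sh N (ang a b)) M := by
  unfold maxVariance Vm Vset
  congr 1
  ext v
  simp only [Set.mem_ofPred_eq, windowVariance_eq]

lemma compl_prop {d : ℕ} (m : Fin d → ℤ) (L : Fin d → ℕ) (hL : ∀ i, 0 < L i) (P : (Fin d → ℤ) → Prop) (ε : ℝ)
    (h : zprop m L (fun ν => ¬ P ν) ≤ ε) : 1 - ε ≤ proportion m L P := by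
  classical
  have hpos : 0 < ∏ i, (L i : ℝ) := prod_pos fun i _ => by exact_mod_cast hL i
  unfold zprop at h
  rw [div_le_iff₀ hpos] at h
  refine le_proportion hL (T := (zbox m L).filter fun ν => ¬ P ν) (le_trans (le_of_eq ?_) h) ?_
  · norm_cast
    congr 1
    ext ν
    simp only [mem_filter]
  · intro ν hν hνT
    by_contra hP
    exact hνT (mem_filter.2 ⟨hν, hP⟩)

lemma pk_ge_five (k : ℕ) (hk : 2 ≤ k) : 5 ≤ pk k := by
  have h2 : pk 2 ≤ pk k := pk_strictMono.monotone hk
  have h3 : 2 ≤ pk 0 := (pk_prime 0).two_le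
  have h4 : pk 0 < pk 1 := pk_strictMono (by norm_num)
  have h5 : pk 1 < pk 2 := pk_strictMono (by norm_num)
  have h6 : pk 2 ≠ 4 := by
    intro h
    have := pk_prime 2
    rw [h] at this
    norm_num at this
  omega

open Classical in
/-- the variance of the windows whose first angle is less than `1 / 2`, in the family of all curves -/
theorem uni_win (s : ℕ) (hs : 0 < s) (N M : ℕ) (hM : 4 ≤ M) :
    (1 / 30 : ℝ) * M ≤ vb (sh N pk) (sh N (ang (MvPolynomial.X 0 : MvPolynomial (Fin 2) ℤ) (MvPolynomial.X 1))) (I0 s) M := by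
  rw [vb_I0 hs (fam_win (MvPolynomial.X 0 : MvPolynomial (Fin 2) ℤ) (MvPolynomial.X 1) s N M)]
  have hang : ∀ (k : ℕ) (ν : Fin 2 → ℤ),
      sh N (ang (MvPolynomial.X 0 : MvPolynomial (Fin 2) ℤ) (MvPolynomial.X 1)) k ν = angle (ν 0) (ν 1) (pk (N + k)) := by
    intro k ν
    unfold sh ang
    rw [MvPolynomial.eval_X, MvPolynomial.eval_X]
  simp only [hang]
  have hterm : ∀ k ∈ range M, (if 2 ≤ k then (1 / 15 : ℝ) else 0) ≤
      avg 2 (sh N pk k) (fun ν => if angle (ν 0) (ν 1) (pk (N + k)) < 1 / 2 then (1 : ℝ) else 0) -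
      avg 2 (sh N pk k) (fun ν => if angle (ν 0) (ν 1) (pk (N + k)) < 1 / 2 then (1 : ℝ) else 0) ^ 2 := by
    intro k _
    have e : sh N pk k = pk (N + k) := rfl
    rw [e]
    split_ifs with h2
    · have : Fact (pk (N + k)).Prime := ⟨pk_prime (N + k)⟩
      obtain ⟨c1, c2⟩ := prob_pos (pk (N + k)) (pk_ge_five (N + k) (by omega))
      nlinarith
    · have h3 : 1 ≤ pk (N + k) := (pk_prime (N + k)).one_lt.le
      have h4 : avg 2 (pk (N + k)) (fun _ => (0 : ℝ)) ≤
          avg 2 (pk (N + k)) (fun ν => if angle (ν 0) (ν 1) (pk (N + k)) < 1 / 2 then (1 : ℝ) else 0) := by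
        apply Q285MD.avg_mono
        intro ν
        split_ifs <;> norm_num
      have h5 : avg 2 (pk (N + k)) (fun ν => if angle (ν 0) (ν 1) (pk (N + k)) < 1 / 2 then (1 : ℝ) else 0) ≤
          avg 2 (pk (N + k)) (fun _ => (1 : ℝ)) := by
        apply Q285MD.avg_mono
        intro ν
        split_ifs <;> norm_num
      rw [Q285MD.avg_const h3] at h4 h5
      nlinarith
  refine le_trans ?_ (sum_le_sum hterm)
  rw [← sum_filter, sum_const, nsmul_eq_mul]
  have h6 : (range M).filter (fun k => 2 ≤ k) = Ico 2 M := by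
    ext k
    rw [mem_filter, mem_range, mem_Ico]
    omega
  rw [h6, Nat.card_Ico, Nat.cast_sub (by omega)]
  have h7 : (4 : ℝ) ≤ M := by exact_mod_cast hM
  push_cast
  linarith

/-- **The law of the maximal increments for the windows of `s` consecutive Frobenius angles**, for almost all members of
every family of elliptic curves, all lengths, all positions and all boxes at once; and the lower bound for the variances in
the family of all curves. -/
theorem result :
    (∀ (s : ℕ) (c δ : ℝ), 0 < c → 0 < δ → δ ≤ 1 → ∃ (A κ : ℝ) (K₀ : ℕ), 0 < A ∧ 0 < κ ∧ 3 ≤ K₀ ∧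
      ∀ (d : ℕ) (a b : MvPolynomial (Fin d) ℤ) (K : ℕ), K₀ ≤ K →
        (∀ N M : ℕ, N + M ≤ K → A * Real.log K ≤ M → (M : ℝ) ≤ (K : ℝ) ^ κ → c * M ≤ maxVariance s a b N M) →
        ∀ (u : Fin d → ℤ) (L : Fin d → ℕ),
          (∀ i, (d + 1) * (pk (K + s) : ℝ) ^ (A * Real.log K) ≤ L i) →
          1 - (K : ℝ) ^ (-κ) ≤ proportion u L (fun ν =>
            ∀ M : ℕ, A * Real.log K ≤ M → (M : ℝ) ≤ (K : ℝ) ^ κ →
              (∀ N : ℕ, N + M ≤ K → ∀ M' : ℕ, M' ≤ M → ∀ R : Fin s → Set ℝ, (∀ i, (R i).OrdConnected) →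
                |windowCount R N M' (MvPolynomial.eval ν a) (MvPolynomial.eval ν b) - windowMean a b R N M'| ≤
                  (1 + δ) * √(2 * maxVariance s a b N M * Real.log K)) ∧
              (∃ N : ℕ, N + M ≤ K ∧ ∃ M' : ℕ, M' ≤ M ∧ ∃ R : Fin s → Set ℝ, (∀ i, (R i).OrdConnected) ∧
                (1 - δ) * √(2 * maxVariance s a b N M * Real.log K) ≤
                  windowCount R N M' (MvPolynomial.eval ν a) (MvPolynomial.eval ν b) - windowMean a b R N M') ∧
              (∃ N : ℕ, N + M ≤ K ∧ ∃ M' : ℕ, M' ≤ M ∧ ∃ R : Fin s → Set ℝ, (∀ i, (R i).OrdConnected) ∧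
                windowCount R N M' (MvPolynomial.eval ν a) (MvPolynomial.eval ν b) - windowMean a b R N M' ≤
                  -((1 - δ) * √(2 * maxVariance s a b N M * Real.log K))))) ∧
    (∀ s : ℕ, 0 < s → ∀ N M : ℕ, 4 ≤ M →
      (1 / 30 : ℝ) * M ≤ maxVariance s (MvPolynomial.X 0 : MvPolynomial (Fin 2) ℤ) (MvPolynomial.X 1) N M) := by
  constructor
  · intro s c δ hc hδ hδ1
    obtain ⟨A, κ, K₀, hA, hκ, hκ8, hK₀3, H⟩ := main s c δ hc hδ hδ1
    refine ⟨A, κ, K₀, by linarith, hκ, hK₀3, ?_⟩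
    intro d a b K hK hV u L hL
    have hK0 : (0 : ℝ) < K := by exact_mod_cast (show 0 < K by omega)
    have e1 : (K : ℝ) ^ κ = Real.exp (κ * Real.log K) := by
      rw [Real.rpow_def_of_pos hK0, mul_comm]
    have e2 : (K : ℝ) ^ (-κ) = Real.exp (-(κ * Real.log K)) := by
      rw [Real.rpow_def_of_pos hK0]
      congr 1
      ring
    rw [e1] at hV ⊢
    rw [e2]
    simp only [maxVariance_eq] at hV
    have hle : ∀ i < K + s, pk i ≤ pk (K + s) := fun i hi => pk_strictMono.monotone (by omega)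
    have hKle : K ≤ pk (K + s) := by
      have := pk_strictMono.le_apply (x := K + s)
      omega
    have hLpos : ∀ i, 0 < L i := by
      intro i
      have h1 := hL i
      have hp1 : (1 : ℝ) ≤ pk (K + s) := by exact_mod_cast (pk_prime _).one_lt.le
      have h2 : (0 : ℝ) < (d + 1) * (pk (K + s) : ℝ) ^ (A * Real.log K) := by positivity
      exact_mod_cast h2.trans_le h1
    have h1 := H d K pk (ang a b) (fam a b (K + s)) hK hV (pk (K + s)) hle hKle u L hL
    simp only [maxVariance_eq, windowMean_eq, windowCount_eq]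
    apply compl_prop u L hLpos
    exact h1
  · intro s hs N M hM
    rw [maxVariance_eq]
    refine (uni_win s hs N M hM).trans ?_
    exact Vm_ge (fam_win (MvPolynomial.X 0 : MvPolynomial (Fin 2) ℤ) (MvPolynomial.X 1) s N M) le_rfl le_rfl (I0 s) (I0_ord s)

end Pool.Agent.Results.MP_29be01_nt.ShortWindows
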