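import Pool.Agent.H90.MR.Trace
import Pool.Agent.H90.MR.Growth
import Pool.Agent.H90.MR.Thin
import Pool.Agent.H85.MR.Cov
import Pool.Agent.H85.MR.Box
import Pool.Agent.H40.MR.Sup
import Pool.Agent.H59.MR.Mom

/-!
# Windows of consecutive Frobenius angles and almost every rotation

Let `p_0 < p_1 < ...` be the primes, `x_k` (`angle`) the Frobenius angle of an elliptic curve `E` over `ℚ` at `p_k`
(`1 / 2` at the primes dividing the discriminant), and `X_k = (x_k, ..., x_{k+s-1})`.

For almost every real `α`, simultaneously for ALL elliptic curves `E` and all `s`: the number of the `k < K` with `X_k ∈ R`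
and `α p_k mod 1 < v` is `v A(R; K)` with an error at most `√K (log K) ^ (2 s + 11/2)`, uniformly in all boxes `R` and
all `v`; the same with a square root error along the thin sets `α p_k mod 1 < δ_k`, for every nonincreasing `δ`.

So for almost every `α` the bound of Q1 for a curve `E` and `s`, with any exponent `β ≤ 1 / 2` in place of `1 / 2`, is
equivalent to the same bound for the `s + 1`-dimensional sequence `(X_k, α p_k mod 1)`, to the same bound for the
discrepancy of the subsequence of the `X_k` with `α p_k mod 1 < v`, for every `v`, and, for almost every `θ`, of the `X_k`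
with `p_k` in the Beatty sequence `⌊n / θ⌋`; and the same for the equidistribution of the `X_k` (conjectural for `s ≥ 2`).
-/

set_option autoImplicit false

namespace Pool.Agent.Results.MP_29be01_nt.WindowsAndRotations

open Finset Filter MeasureTheory
open Pool.Agent.H90.MR
open Pool.Agent.H90.MR.Trace (ap)

open Classical in
/-- The Frobenius angle `x_k` in `[0, 1]` at the prime with the number `k`: `a_p = 2 √p cos (π x_k)`; it is `1 / 2` if the
prime divides the discriminant. -/
noncomputable def angle (W : WeierstrassCurve ℤ) (k : ℕ) : ℝ :=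
  if ((Nat.nth Nat.Prime k : ℕ) : ℤ) ∣ W.Δ then 1 / 2 else
    Real.arccos (ap W (Nat.nth Nat.Prime k) / (2 * √(Nat.nth Nat.Prime k : ℝ))) / Real.pi

open Classical in
/-- The `k < K` in `S`. -/
noncomputable def members (S : Set ℕ) (K : ℕ) : Finset ℕ := (range K).filter (fun k => k ∈ S)

open Classical in
/-- The `k < K` in `S` whose window `(x_k, ..., x_{k+s-1})` lies in the box `∏ [a_j, b_j)`. -/
noncomputable def windows (W : WeierstrassCurve ℤ) {s : ℕ} (S : Set ℕ) (a b : Fin s → ℝ) (K : ℕ) : Finset ℕ :=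
  (range K).filter (fun k => k ∈ S ∧ ∀ j : Fin s, a j ≤ angle W (k + j) ∧ angle W (k + j) < b j)

/-- The Sato-Tate measure of the box `∏ [a_j, b_j)`. -/
noncomputable def satoTate {s : ℕ} (a b : Fin s → ℝ) : ℝ := ∏ j, ∫ u in (a j)..(b j), 2 * Real.sin (Real.pi * u) ^ 2

/-- The box is contained in the unit cube. -/
def IsBox {s : ℕ} (a b : Fin s → ℝ) : Prop := ∀ j, 0 ≤ a j ∧ a j ≤ b j ∧ b j ≤ 1

/-- The discrepancy of the first `M` of the windows `X_k`, `k ∈ S`, is at most `C M ^ (ε - β)`, for every `ε > 0`.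
For `S = Set.univ` and `β = 1 / 2` this is the bound of Q1 for the curve and `s`. -/
def Law (W : WeierstrassCurve ℤ) (s : ℕ) (S : Set ℕ) (β : ℝ) : Prop :=
  ∀ ε : ℝ, 0 < ε → ∃ C : ℝ, ∀ K : ℕ, 0 < (members S K).card → ∀ a b : Fin s → ℝ, IsBox a b →
    |((windows W S a b K).card : ℝ) / (members S K).card - satoTate a b| ≤ C * ((members S K).card : ℝ) ^ (ε - β)

/-- The indices `k` with `α p_k` modulo 1 in `[0, v)`. -/
def arcIndices (α v : ℝ) : Set ℕ := {k | Int.fract ((Nat.nth Nat.Prime k : ℝ) * α) < v}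

/-- The indices `k` with `α p_k` modulo 1 in `[0, δ k)`. -/
def targetIndices (α : ℝ) (δ : ℕ → ℝ) : Set ℕ := {k | Int.fract ((Nat.nth Nat.Prime k : ℝ) * α) < δ k}

/-- The indices `k` for which `p_k = ⌊n / θ⌋` for some `n`. -/
def beattyIndices (θ : ℝ) : Set ℕ := {k | ∃ n : ℕ, ((Nat.nth Nat.Prime k : ℕ) : ℤ) = ⌊(n : ℝ) / θ⌋}

/-- The discrepancy of the sequence `(X_k, α p_k mod 1)` in dimension `s + 1` is at most `C K ^ (ε - β)`, for all `ε > 0`. -/
def JointLaw (W : WeierstrassCurve ℤ) (s : ℕ) (α β : ℝ) : Prop :=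
  ∀ ε : ℝ, 0 < ε → ∃ C : ℝ, ∀ K : ℕ, 1 ≤ K → ∀ a b : Fin s → ℝ, IsBox a b → ∀ v : ℝ, 0 ≤ v → v ≤ 1 →
    |((windows W (arcIndices α v) a b K).card : ℝ) / K - satoTate a b * v| ≤ C * (K : ℝ) ^ (ε - β)

/-- The windows `X_k`, `k ∈ S`, are equidistributed for the product of the Sato-Tate measures. -/
def Equidistributed (W : WeierstrassCurve ℤ) (s : ℕ) (S : Set ℕ) : Prop :=
  ∀ a b : Fin s → ℝ, IsBox a b →
    Tendsto (fun K : ℕ => ((windows W S a b K).card : ℝ) / (members S K).card) atTop (nhds (satoTate a b))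

lemma angle_bounds (W : WeierstrassCurve ℤ) (k : ℕ) : -1 ≤ angle W k ∧ angle W k < 2 := by
  unfold angle
  split_ifs
  · norm_num
  · have hπ := Real.pi_pos
    constructor
    · have : 0 ≤ Real.arccos (ap W (Nat.nth Nat.Prime k) / (2 * √(Nat.nth Nat.Prime k : ℝ))) / Real.pi :=
        div_nonneg (Real.arccos_nonneg _) hπ.le
      linarith
    · rw [div_lt_iff₀ hπ]
      have := Real.arccos_le_pi (ap W (Nat.nth Nat.Prime k) / (2 * √(Nat.nth Nat.Prime k : ℝ)))
      linarith

lemma windows_all (W : WeierstrassCurve ℤ) {s : ℕ} (S : Set ℕ) (K : ℕ) :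
    windows W S (fun _ : Fin s => (-1 : ℝ)) (fun _ => 2) K = members S K := by
  unfold windows members
  ext k
  simp only [mem_filter]
  constructor
  · rintro ⟨h1, h2, _⟩
    exact ⟨h1, h2⟩
  · rintro ⟨h1, h2⟩
    exact ⟨h1, h2, fun j => angle_bounds W _⟩

lemma members_univ (K : ℕ) : members Set.univ K = range K := by
  unfold members
  ext k
  simp

lemma windows_le (W : WeierstrassCurve ℤ) {s : ℕ} (S : Set ℕ) (a b : Fin s → ℝ) (K : ℕ) :
    (windows W S a b K).card ≤ (members S K).card := by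
  apply card_le_card
  unfold windows members
  intro k hk
  simp only [mem_filter] at hk ⊢
  exact ⟨hk.1, hk.2.1⟩

lemma members_le (S : Set ℕ) (K : ℕ) : (members S K).card ≤ K := by
  classical
  unfold members
  exact (card_filter_le _ _).trans (card_range _).le

lemma satoTate_bound {s : ℕ} {a b : Fin s → ℝ} (h : IsBox a b) : |satoTate a b| ≤ 2 ^ s := by
  unfold satoTate
  rw [abs_prod]
  calc ∏ j : Fin s, |∫ u in (a j)..(b j), 2 * Real.sin (Real.pi * u) ^ 2| ≤ ∏ j : Fin s, (2 : ℝ) := by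
        apply prod_le_prod (fun j _ => abs_nonneg _)
        intro j _
        obtain ⟨h1, h2, h3⟩ := h j
        have h4 := intervalIntegral.norm_integral_le_of_norm_le_const (a := a j) (b := b j) (C := 2)
          (f := fun u => 2 * Real.sin (Real.pi * u) ^ 2) (fun u _ => by
            rw [Real.norm_eq_abs, abs_of_nonneg (by positivity)]
            have := Real.sin_sq_le_one (Real.pi * u)
            linarith)
        rw [Real.norm_eq_abs, abs_of_nonneg (by linarith : 0 ≤ b j - a j)] at h4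
        linarith
    _ = 2 ^ s := by simp

/-- the index type of the boxes and the arcs -/
abbrev Idx (s : ℕ) := (Fin s → ℝ) × (Fin s → ℝ)

/-- the error of one set is of order `√K` -/
def Good (W : WeierstrassCurve ℤ) (s : ℕ) (S : Set ℕ) (v : ℝ) : Prop :=
  ∃ K₀ : ℕ, ∀ K : ℕ, K₀ ≤ K → ∀ a b : Fin s → ℝ,
    (((windows W S a b K).card : ℝ) - v * (windows W Set.univ a b K).card) ^ 2 ≤ K * Real.log K ^ (4 * s + 11)

lemma good_members {W : WeierstrassCurve ℤ} {s : ℕ} {S : Set ℕ} {v : ℝ} (h : Good W s S v) :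
    ∃ K₀ : ℕ, ∀ K : ℕ, K₀ ≤ K → (((members S K).card : ℝ) - v * K) ^ 2 ≤ K * Real.log K ^ (4 * s + 11) := by
  obtain ⟨K₀, h⟩ := h
  refine ⟨K₀, fun K hK => ?_⟩
  have h1 := h K hK (fun _ => -1) (fun _ => 2)
  rw [windows_all, windows_all, members_univ, card_range] at h1
  exact h1

lemma good_ratio {W : WeierstrassCurve ℤ} {s : ℕ} {S : Set ℕ} {v : ℝ} (h : Good W s S v) :
    Tendsto (fun K : ℕ => ((members S K).card : ℝ) / K) atTop (nhds v) := by
  have := ratio (P := fun K => K) (Q := fun K => (members S K).card) (v := v) (E := 4 * s + 11) tendsto_id (good_members h)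
  exact this

lemma good_lower {W : WeierstrassCurve ℤ} {s : ℕ} {S : Set ℕ} {v : ℝ} (hv : 0 < v) (h : Good W s S v) :
    ∃ K₁ : ℕ, ∀ K : ℕ, K₁ ≤ K → v / 2 * K ≤ (members S K).card := by
  have h1 := (good_ratio h).eventually (eventually_ge_nhds (by linarith : v / 2 < v))
  obtain ⟨K₁, h2⟩ := eventually_atTop.1 (h1.and (eventually_ge_atTop 1))
  refine ⟨K₁, fun K hK => ?_⟩
  obtain ⟨h3, h4⟩ := h2 K hK
  have h5 : (0 : ℝ) < K := by exact_mod_cast h4
  rwa [le_div_iff₀ h5] at h3

lemma abs_diff_le {x y v K : ℝ} (hx : 0 ≤ x) (hx' : x ≤ K) (hy : 0 ≤ y) (hy' : y ≤ K) (hv : 0 ≤ v) (hv' : v ≤ 1) :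
    |x - v * y| ≤ K := by
  rw [abs_le]
  constructor <;> nlinarith

/-- the equivalence for one set -/
lemma law_iff {W : WeierstrassCurve ℤ} {s : ℕ} {S : Set ℕ} {v β : ℝ} (hv : 0 < v) (hv1 : v ≤ 1) (hβ0 : 0 ≤ β)
    (hβ : β ≤ 1 / 2) (h : Good W s S v) : Law W s Set.univ β ↔ Law W s S β := by
  set D : Idx s → Prop := fun i => IsBox i.1 i.2 with hD
  set μ : Idx s → ℝ := fun i => satoTate i.1 i.2 with hμ
  have hμB : ∀ i, D i → |μ i| ≤ 2 ^ s := fun i hi => satoTate_bound hi
  have hgen : ∀ (T : Set ℕ) (c : ℝ), 0 < c → (∃ K₁ : ℕ, ∀ K : ℕ, K₁ ≤ K → c * K ≤ (members T K).card) →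
      (Law W s T β ↔ GG β D (fun K i => ((windows W T i.1 i.2 K).card : ℝ) - (members T K).card * μ i)) := by
    intro T c hc hT
    rw [← norm_iff (β := β) hβ0 hβ (D := D) (A := fun K i => ((windows W T i.1 i.2 K).card : ℝ)) (N := fun K => (members T K).card)
      (μ := μ) (B := 2 ^ s) hc (members_le T) hT (fun K i => ⟨by positivity, by exact_mod_cast windows_le W T i.1 i.2 K⟩) hμB]
    unfold Law
    constructor
    · intro h ε hε
      obtain ⟨C, hC⟩ := h ε hε
      exact ⟨C, fun K hK i hi => hC K hK i.1 i.2 hi⟩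
    · intro h ε hε
      obtain ⟨C, hC⟩ := h ε hε
      exact ⟨C, fun K hK a b hab => hC K hK (a, b) hab⟩
  have h1 := hgen Set.univ 1 one_pos ⟨0, fun K _ => by rw [members_univ, card_range, one_mul]⟩
  have h2 := hgen S (v / 2) (by linarith) (good_lower hv h)
  rw [h1, h2]
  have hF1 : GG β D (fun K i => ((windows W S i.1 i.2 K).card : ℝ) - v * (windows W Set.univ i.1 i.2 K).card) := by
    obtain ⟨K₀, h3⟩ := h
    refine GG.of_sq hβ ⟨K₀, fun K hK i _ => h3 K hK i.1 i.2⟩ fun K i _ => ?_
    have h4 := (windows_le W S i.1 i.2 K).trans (members_le S K)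
    have h5 := (windows_le W Set.univ i.1 i.2 K).trans (members_le Set.univ K)
    exact abs_diff_le (by positivity) (by exact_mod_cast h4) (by positivity) (by exact_mod_cast h5) hv.le hv1
  have hF2 : GG β D (fun K i => μ i * (((members S K).card : ℝ) - v * K)) := by
    obtain ⟨K₀, h3⟩ := good_members h
    refine (GG.of_sq hβ (D := D) (F := fun K (_ : Idx s) => ((members S K).card : ℝ) - v * K)
      ⟨K₀, fun K hK i _ => h3 K hK⟩ fun K i _ => ?_).mul μ hμB
    exact abs_diff_le (by positivity) (by exact_mod_cast members_le S K) (by positivity) le_rfl hv.le hv1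
  have hc1 : ∀ c : ℝ, ∀ i, D i → |(fun _ : Idx s => c) i| ≤ |c| := fun c i _ => le_rfl
  constructor
  · intro h3
    refine ((hF1.add (h3.mul (fun _ => v) (hc1 v))).add (hF2.mul (fun _ => -1) (hc1 (-1)))).congr fun K i _ => ?_
    simp only [members_univ, card_range]
    ring
  · intro h3
    refine (((hF1.mul (fun _ => -1) (hc1 (-1))).add (h3.add hF2)).mul (fun _ => v⁻¹) (hc1 v⁻¹)).congr fun K i _ => ?_
    simp only [members_univ, card_range]
    field_simp
    ring

lemma equi_iff {W : WeierstrassCurve ℤ} {s : ℕ} {S : Set ℕ} {v : ℝ} (hv : 0 < v) (h : Good W s S v) :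
    Equidistributed W s Set.univ ↔ Equidistributed W s S := by
  unfold Equidistributed
  refine forall_congr' fun a => forall_congr' fun b => forall_congr' fun hab => ?_
  have hE : Tendsto (fun K : ℕ => (((windows W S a b K).card : ℝ) - v * (windows W Set.univ a b K).card) / K) atTop
      (nhds 0) := by
    have h1 : Tendsto (fun K : ℕ => ((((windows W S a b K).card : ℝ) - v * (windows W Set.univ a b K).card) / K) ^ 2) atTop
        (nhds 0) := by
      obtain ⟨K₀, h3⟩ := h
      refine squeeze_zero' (Eventually.of_forall fun x => sq_nonneg _) ?_ (log_pow_div (4 * s + 11))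
      filter_upwards [eventually_ge_atTop K₀, eventually_ge_atTop 1] with K hK hK1
      have h4 : (0 : ℝ) < K := by exact_mod_cast hK1
      rw [div_pow, div_le_iff₀ (by positivity)]
      refine (h3 K hK a b).trans (le_of_eq ?_)
      field_simp
    have h2 := (Real.continuous_sqrt.tendsto 0).comp h1
    rw [Real.sqrt_zero] at h2
    refine (tendsto_zero_iff_abs_tendsto_zero _).2 (h2.congr fun x => ?_)
    simp only [Function.comp_apply, Real.sqrt_sq_eq_abs]
  have hN := good_ratio h
  simp only [members_univ, card_range]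
  constructor
  · intro h1
    have h2 := (hE.add (h1.const_mul v)).div hN hv.ne'
    rw [zero_add, mul_div_cancel_left₀ _ hv.ne'] at h2
    refine h2.congr' ?_
    have h3 := (good_lower hv h)
    obtain ⟨K₁, h3⟩ := h3
    filter_upwards [eventually_ge_atTop K₁, eventually_ge_atTop 1] with K hK hK1
    have h4 : (0 : ℝ) < K := by exact_mod_cast hK1
    have h5 : (0 : ℝ) < (members S K).card := lt_of_lt_of_le (by positivity) (h3 K hK)
    simp only [Pi.div_apply]
    field_simp
    ring
  · intro h1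
    have h2 := ((h1.mul hN).sub hE).div_const v
    rw [sub_zero, mul_div_cancel_right₀ _ hv.ne'] at h2
    refine h2.congr' ?_
    have h3 := (good_lower hv h)
    obtain ⟨K₁, h3⟩ := h3
    filter_upwards [eventually_ge_atTop K₁, eventually_ge_atTop 1] with K hK hK1
    have h4 : (0 : ℝ) < K := by exact_mod_cast hK1
    have h5 : (0 : ℝ) < (members S K).card := lt_of_lt_of_le (by positivity) (h3 K hK)
    field_simp
    ring

/-- all arcs at once -/
def GoodAll (W : WeierstrassCurve ℤ) (s : ℕ) (α : ℝ) : Prop :=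
  ∃ K₀ : ℕ, ∀ K : ℕ, K₀ ≤ K → ∀ a b : Fin s → ℝ, ∀ v : ℝ, 0 ≤ v → v ≤ 1 →
    (((windows W (arcIndices α v) a b K).card : ℝ) - v * (windows W Set.univ a b K).card) ^ 2 ≤
      K * Real.log K ^ (4 * s + 11)

lemma joint_iff {W : WeierstrassCurve ℤ} {s : ℕ} {α β : ℝ} (hβ : β ≤ 1 / 2) (h : GoodAll W s α) :
    Law W s Set.univ β ↔ JointLaw W s α β := by
  constructor
  · intro h1 ε hε
    obtain ⟨C, hC⟩ := h1 ε hε
    set D : Idx s × ℝ → Prop := fun i => 0 ≤ i.2 ∧ i.2 ≤ 1 with hD
    have hF1 : GG β D (fun K i => ((windows W (arcIndices α i.2) i.1.1 i.1.2 K).card : ℝ) -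
        i.2 * (windows W Set.univ i.1.1 i.1.2 K).card) := by
      obtain ⟨K₀, h3⟩ := h
      refine GG.of_sq hβ ⟨K₀, fun K hK i hi => h3 K hK i.1.1 i.1.2 i.2 hi.1 hi.2⟩ fun K i hi => ?_
      have h4 := (windows_le W (arcIndices α i.2) i.1.1 i.1.2 K).trans (members_le _ K)
      have h5 := (windows_le W Set.univ i.1.1 i.1.2 K).trans (members_le Set.univ K)
      exact abs_diff_le (by positivity) (by exact_mod_cast h4) (by positivity) (by exact_mod_cast h5) hi.1 hi.2
    obtain ⟨C', hC'⟩ := hF1 ε hε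
    refine ⟨C' + C, fun K hK a b hab v hv0 hv1 => ?_⟩
    have hK0 : (0 : ℝ) < K := by exact_mod_cast hK
    have h2 := hC K (by rw [members_univ, card_range]; exact hK) a b hab
    rw [members_univ, card_range] at h2
    have h3 := hC' K hK ((a, b), v) ⟨hv0, hv1⟩
    simp only at h3
    have h4 : (K : ℝ) ^ (1 - β + ε) = K * (K : ℝ) ^ (ε - β) := by
      rw [show 1 - β + ε = 1 + (ε - β) by ring, Real.rpow_add hK0, Real.rpow_one]
    have e : ((windows W (arcIndices α v) a b K).card : ℝ) / K - satoTate a b * v =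
        (((windows W (arcIndices α v) a b K).card : ℝ) - v * (windows W Set.univ a b K).card) / K +
        v * (((windows W Set.univ a b K).card : ℝ) / K - satoTate a b) := by
      field_simp
      ring
    rw [e]
    refine (abs_add_le _ _).trans ?_
    rw [add_mul]
    apply add_le_add
    · rw [abs_div, abs_of_pos hK0, div_le_iff₀ hK0]
      refine h3.trans (le_of_eq ?_)
      rw [h4]
      ring
    · rw [abs_mul, abs_of_nonneg hv0]
      calc v * |((windows W Set.univ a b K).card : ℝ) / K - satoTate a b| ≤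
            1 * |((windows W Set.univ a b K).card : ℝ) / K - satoTate a b| :=
            mul_le_mul_of_nonneg_right hv1 (abs_nonneg _)
        _ ≤ _ := by rw [one_mul]; exact h2
  · intro h1 ε hε
    obtain ⟨C, hC⟩ := h1 ε hε
    refine ⟨C, fun K hK a b hab => ?_⟩
    rw [members_univ, card_range] at hK ⊢
    have h2 := hC K hK a b hab 1 zero_le_one le_rfl
    have h3 : windows W (arcIndices α 1) a b K = windows W Set.univ a b K := by
      unfold windows
      ext k
      simp only [mem_filter, Set.mem_univ, true_and]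
      constructor
      · rintro ⟨h1, _, h2⟩
        exact ⟨h1, h2⟩
      · rintro ⟨h1, h2⟩
        exact ⟨h1, show Int.fract ((Nat.nth Nat.Prime k : ℝ) * α) < 1 from Int.fract_lt_one _, h2⟩
    rw [h3, mul_one] at h2
    exact h2

/-- **Windows of Frobenius angles and almost every rotation.** -/
theorem result :
    (∀ᵐ α : ℝ, ∀ (W : WeierstrassCurve ℤ) (s : ℕ), ∃ K₀ : ℕ, ∀ K : ℕ, K₀ ≤ K → ∀ a b : Fin s → ℝ,
      ∀ v : ℝ, 0 ≤ v → v ≤ 1 →
        (((windows W (arcIndices α v) a b K).card : ℝ) - v * (windows W Set.univ a b K).card) ^ 2 ≤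
          K * Real.log K ^ (4 * s + 11)) ∧
    (∀ δ : ℕ → ℝ, (∀ k, 0 ≤ δ k ∧ δ k ≤ 1) → Antitone δ → ∀ᵐ α : ℝ, ∀ (W : WeierstrassCurve ℤ) (s : ℕ),
      ∃ K₀ : ℕ, ∀ K : ℕ, K₀ ≤ K → ∀ a b : Fin s → ℝ,
        (((windows W (targetIndices α δ) a b K).card : ℝ) - ∑ k ∈ windows W Set.univ a b K, δ k) ^ 2 ≤
          (1 + ∑ k ∈ range K, δ k) * Real.log K ^ (4 * s + 7)) ∧
    (∀ᵐ α : ℝ, ∀ (W : WeierstrassCurve ℤ) (s : ℕ),
      (∀ β : ℝ, 0 ≤ β → β ≤ 1 / 2 → (Law W s Set.univ β ↔ JointLaw W s α β)) ∧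
      ∀ v : ℝ, 0 < v → v ≤ 1 →
        (∀ β : ℝ, 0 ≤ β → β ≤ 1 / 2 → (Law W s Set.univ β ↔ Law W s (arcIndices α v) β)) ∧
        (Equidistributed W s Set.univ ↔ Equidistributed W s (arcIndices α v))) ∧
    (∀ᵐ θ : ℝ, 0 < θ → θ < 1 → ∀ (W : WeierstrassCurve ℤ) (s : ℕ),
      (∀ β : ℝ, 0 ≤ β → β ≤ 1 / 2 → (Law W s Set.univ β ↔ Law W s (beattyIndices θ) β)) ∧
      (Equidistributed W s Set.univ ↔ Equidistributed W s (beattyIndices θ))) := by
  have hMom := Pool.Agent.H59.MR.mom Pool.Agent.H85.MR.cov Pool.Agent.H85.MR.var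
  have hE := Pool.Agent.H59.MR.exp hMom
  have hM : S_MET := met Pool.Agent.H40.MR.dy Pool.Agent.H40.MR.sup hE
  have hT : S_THIN := thin Pool.Agent.H40.MR.sup hE
  have hbox := Pool.Agent.H85.MR.box hM
  have hboxt := Pool.Agent.H85.MR.boxt hT
  have hmono := Nat.nth_strictMono Nat.infinite_setOfPred_prime
  have hA : ∀ᵐ α : ℝ, ∀ (W : WeierstrassCurve ℤ) (s : ℕ), GoodAll W s α := by
    rw [ae_all_iff]
    intro W
    rw [ae_all_iff]
    intro s
    filter_upwards [hbox (Nat.nth Nat.Prime) hmono (Nat.prime_nth_prime 0).one_lt.le nth_coprime (angle W) s] with α hα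
    obtain ⟨K₀, h⟩ := hα
    refine ⟨K₀, fun K hK a b v hv0 hv1 => ?_⟩
    have h1 := h K hK a b v hv0 hv1
    have e1 : windows W (arcIndices α v) a b K = ((range K).filter (fun k =>
        (∀ j : Fin s, a j ≤ angle W (k + j) ∧ angle W (k + j) < b j) ∧ Int.fract ((Nat.nth Nat.Prime k : ℝ) * α) < v)) := by
      unfold windows arcIndices
      ext k
      simp only [mem_filter, Set.mem_ofPred_eq]
      tauto
    have e2 : windows W Set.univ a b K = ((range K).filter (fun k =>
        (∀ j : Fin s, a j ≤ angle W (k + j) ∧ angle W (k + j) < b j))) := by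
      unfold windows
      ext k
      simp only [mem_filter, Set.mem_univ]
      tauto
    rw [e1, e2]
    convert h1 using 5
  have hB := ae_neg hA
  have hgood : ∀ {W : WeierstrassCurve ℤ} {s : ℕ} {α v : ℝ}, GoodAll W s α → 0 ≤ v → v ≤ 1 →
      Good W s (arcIndices α v) v := by
    intro W s α v h hv0 hv1
    obtain ⟨K₀, h⟩ := h
    exact ⟨K₀, fun K hK a b => h K hK a b v hv0 hv1⟩
  refine ⟨hA, ?_, ?_, ?_⟩
  · intro δ hδ hδa
    rw [ae_all_iff]
    intro W
    rw [ae_all_iff]
    intro s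
    filter_upwards [hboxt (Nat.nth Nat.Prime) hmono (Nat.prime_nth_prime 0).one_lt.le nth_coprime δ hδ hδa (angle W) s]
      with α hα
    obtain ⟨K₀, h⟩ := hα
    refine ⟨K₀, fun K hK a b => ?_⟩
    have h1 := h K hK a b
    have e1 : windows W (targetIndices α δ) a b K = ((range K).filter (fun k =>
        (∀ j : Fin s, a j ≤ angle W (k + j) ∧ angle W (k + j) < b j) ∧ Int.fract ((Nat.nth Nat.Prime k : ℝ) * α) < δ k)) := by
      unfold windows targetIndices
      ext k
      simp only [mem_filter, Set.mem_ofPred_eq]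
      tauto
    have e2 : windows W Set.univ a b K = ((range K).filter (fun k =>
        (∀ j : Fin s, a j ≤ angle W (k + j) ∧ angle W (k + j) < b j))) := by
      unfold windows
      ext k
      simp only [mem_filter, Set.mem_univ]
      tauto
    rw [e1, e2]
    convert h1 using 5
  · filter_upwards [hA] with α hα W s
    refine ⟨fun β _ hβ => joint_iff hβ (hα W s), fun v hv0 hv1 => ⟨fun β hβ0 hβ => ?_, ?_⟩⟩
    · exact law_iff hv0 hv1 hβ0 hβ (hgood (hα W s) hv0.le hv1)
    · exact equi_iff hv0 (hgood (hα W s) hv0.le hv1)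
  · filter_upwards [hB] with θ hθ h0 h1 W s
    have hset : beattyIndices θ = arcIndices (-θ) θ := by
      ext k
      exact beatty_iff h0 h1 (Nat.nth Nat.Prime k)
    rw [hset]
    exact ⟨fun β hβ0 hβ => law_iff h0 h1.le hβ0 hβ (hgood (hθ W s) h0.le h1.le),
      equi_iff h0 (hgood (hθ W s) h0.le h1.le)⟩

end Pool.Agent.Results.MP_29be01_nt.WindowsAndRotations
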